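import Pool.Agent.KS6_51.INVC.Fam

set_option autoImplicit false

/-!
# Twin almost primes between `n` and `2 n`, at all coordinates of the points of invariant sets modulo `p`

We look for `P` in the interval `[m, m + p)`, where `n < m`, `m + p + 2 ≤ 2 n`, and `p` is a prime with `n ≤ p^B` (so
that the interval can be as short as any fixed power of `n`, anywhere between `n` and `2 n`).  Let `Ω` be an ARBITRARY
set of vectors modulo `p` with `r` coordinates which is mapped onto itself by some affine maps, such that every nonzero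
linear functional has at least `T` images under (products of) the linear parts.  If `(∏ N_j)² |Ω| T ≥ p^(3r + ε)` then
the number of the vectors in `Ω` with the least residues `x_j` of all `r` coordinates in given intervals
`[A_j, A_j + N_j)`, and such that for each of the `r` numbers `P = m + x_j` we have `n < P < P + 2 < 2 n` and both `P`
and `P + 2` have at most `R` prime factors, all larger than `p^κ`, is at least a constant times the expected number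
`(∏ N_j) |Ω| p^(-r) (log p)^(-2r)`, for EVERY large `n`.

Three cases: affine groups, in the form above; sets of elements of the field with `p^r` elements which are closed under
the multiplication with a subgroup `U` of its multiplicative group, coordinates with respect to any basis, `T = |U|`;
sets of `d`-dimensional arrays (matrices, tensors) closed under the addition of multiples of slices to slices in the
directions of a set `D`, `T = p^(1 + ∑_{j ∈ D} (n_j - 1))`.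

Proof (`Pool.Agent.KS6_51.INV`, `Pool.Agent.KS6_51.INVC`).  The modulus of the Fourier transform of `Ω` is constant on
the orbits of the functionals, and Parseval's identity bounds it.  The rest is the fundamental lemma of the sieve for
vectors of integers in the form of the starting library (`Pool.Agent.Q46.SL`, `Pool.Agent.Q20.RG.primeC`).
-/

namespace Pool.Agent.Results.MP_43e117_nt.InvariantTwins

open Finset Matrix Module Polynomial
open Pool.Agent.Q46.SL hiding Almost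
open Pool.Agent.KS6_51.INVC hiding Count

/-- `n` is not zero and has at most `R` prime factors (counted with multiplicity), all larger than `z` -/
def Almost (z : ℝ) (R : ℕ) (n : ℤ) : Prop :=
  n ≠ 0 ∧ n.natAbs.primeFactorsList.length ≤ R ∧ ∀ q : ℕ, q.Prime → (q : ℤ) ∣ n → z < q

/-- `P = m + x` and `P + 2` are strictly between `n` and `2 n` and have at most `R` prime factors, all larger than
`z` -/
def Twins (n m : ℕ) (z : ℝ) (R : ℕ) (x : ℕ) : Prop :=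
  (n < m + x ∧ m + x + 2 < 2 * n) ∧ Almost z R ((m : ℤ) + x) ∧ Almost z R ((m : ℤ) + x + 2)

/-- the number of the `v` in `Ω` all of whose coordinates `c v j` have their least residue in `[A j, A j + N j)` and
with the property `P` -/
noncomputable def Count {V J : Type} {p : ℕ} (Ω : Finset V) (c : V → J → ZMod p) (A N : J → ℕ) (P : ℕ → Prop) : ℕ :=
  {v : V | v ∈ Ω ∧ ∀ j, (A j ≤ (c v j).val ∧ (c v j).val < A j + N j) ∧ P (c v j).val}.ncard

/-- the intervals `[A j, A j + N j)` are in `[0, p)` and have length at least `p ^ ε` -/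
def Boxes {J : Type} (ε : ℝ) (p : ℕ) (A N : J → ℕ) : Prop := ∀ j, A j + N j ≤ p ∧ (p : ℝ) ^ ε ≤ N j

/-- every set of row vectors which contains a nonzero vector and is closed under `h ↦ h M`, `(M, b) ∈ Γ`, has at least
`T` elements -/
def LargeOrbits {p r : ℕ} (Γ : Set (Matrix (Fin r) (Fin r) (ZMod p) × (Fin r → ZMod p))) (T : ℝ) : Prop :=
  ∀ H : Finset (Fin r → ZMod p), (∃ h ∈ H, h ≠ 0) → (∀ γ ∈ Γ, ∀ h ∈ H, h ᵥ* γ.1 ∈ H) → T ≤ H.card

/-- the array `X` with `s` times the slice `i j = b` added to the slice `i j = a` -/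
def addSlice {p k : ℕ} {n : Fin k → ℕ} (j : Fin k) (a b : Fin (n j)) (s : ZMod p)
    (X : (∀ j, Fin (n j)) → ZMod p) : (∀ j, Fin (n j)) → ZMod p :=
  fun i => if i j = a then X i + s * X (Function.update i j b) else X i

lemma adm2 (m q : ℕ) (hq : q.Prime) :
    ∃ a < q, ¬ (q : ℤ) ∣ (m : ℤ) + (a : ℤ) ∧ ¬ (q : ℤ) ∣ (m : ℤ) + 2 + (a : ℤ) := by
  have hq0 : (0 : ℤ) < q := by exact_mod_cast hq.pos
  obtain ⟨b, hb, hb2⟩ : ∃ b : ℤ, ¬ (q : ℤ) ∣ b ∧ ¬ (q : ℤ) ∣ b + 2 := by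
    by_cases h3 : q = 3
    · subst h3
      exact ⟨2, by decide, by decide⟩
    · refine ⟨1, fun h => ?_, fun h => ?_⟩
      · have := Int.le_of_dvd (by norm_num) h
        have := hq.two_le
        omega
      · have h1 : q ∣ 3 := by exact_mod_cast h
        exact h3 ((Nat.prime_dvd_prime_iff_eq hq Nat.prime_three).1 h1)
  have e : ∀ t : ℤ, (m : ℤ) + t + (b - m) % q = (b + t) - q * ((b - m) / q) := by
    intro t
    have := Int.emod_add_mul_ediv (b - m) q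
    linarith
  have hn := Int.emod_nonneg (b - m) hq0.ne'
  refine ⟨((b - m) % q).toNat, ?_, fun hd => hb ?_, fun hd => hb2 ?_⟩
  · have h1 := Int.emod_lt_of_pos (b - m) hq0
    omega
  · rw [Int.toNat_of_nonneg hn] at hd
    have e0 := e 0
    rw [add_zero, add_zero] at e0
    rw [e0] at hd
    exact (dvd_sub_left (dvd_mul_right _ _)).1 hd
  · rw [Int.toNat_of_nonneg hn, e] at hd
    exact (dvd_sub_left (dvd_mul_right _ _)).1 hd

/-- the two polynomials -/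
noncomputable def sys (m : ℕ) : PE 2 0 2 where
  f := ![C (m : ℤ) + X, C ((m : ℤ) + 2) + X]
  E := fun _ => ∅
  deg := by
    rw [Fin.sum_univ_two]
    simp only [Matrix.cons_val]
    have d0 : (C (m : ℤ) + X : ℤ[X]).natDegree ≤ 1 := by compute_degree
    have d1 : (C ((m : ℤ) + 2) + X : ℤ[X]).natDegree ≤ 1 := by compute_degree
    omega
  adm := by
    intro q hq
    obtain ⟨a, ha, h0, h2⟩ := adm2 m q hq
    refine ⟨by simp, a, ha, by simp, fun j => ?_⟩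
    fin_cases j
    · simpa using h0
    · simpa using h2

lemma twins_of (B p n m : ℕ) (hp2 : 8 ≤ p) (hnm : n < m) (hmp : m + p + 2 ≤ 2 * n)
    (hn : (n : ℝ) ≤ (p : ℝ) ^ B) (κ : ℝ) (x : ℕ) (hx : x < p) (hN : Near (B + 4) (sys m) κ p x) :
    Twins n m ((p : ℝ) ^ κ) ⌊(((B + 4 : ℕ) : ℝ) + ((2 : ℕ) : ℝ) + 1) / κ⌋₊ x := by
  obtain ⟨h0, h12⟩ := hN
  have hp2' : (8 : ℝ) ≤ p := by exact_mod_cast hp2
  have hP1 : (1 : ℝ) ≤ (p : ℝ) ^ B := one_le_pow₀ (by linarith)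
  have hm0 : (0 : ℝ) ≤ m := Nat.cast_nonneg m
  have hmn : (m : ℝ) ≤ 2 * n := by exact_mod_cast (by omega : m ≤ 2 * n)
  have hbig : 2 * (p : ℝ) ^ B + 3 ≤ (p : ℝ) ^ (B + 4) := by
    rw [pow_add]
    have e1 : (16 : ℝ) ≤ (p : ℝ) ^ 4 := by
      calc (16 : ℝ) ≤ 8 ^ 4 := by norm_num
        _ ≤ _ := pow_le_pow_left₀ (by norm_num) hp2' 4
    nlinarith
  obtain ⟨h1, -⟩ := h12 (by
    intro j
    fin_cases j
    · refine cb_mono (cb_add (cb_C _) cb_X) ?_
      push_cast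
      rw [abs_of_nonneg (by positivity)]
      linarith
    · refine cb_mono (cb_add (cb_C _) cb_X) ?_
      push_cast
      rw [abs_of_nonneg (by positivity)]
      linarith) (by exact_mod_cast hx.le)
  refine ⟨⟨by omega, by omega⟩, ?_, ?_⟩
  · have := h1 0
    simpa [sys, Almost, Pool.Agent.Q46.SL.Almost] using this
  · have e : (m : ℤ) + x + 2 = (m : ℤ) + 2 + x := by ring
    rw [e]
    have := h1 1
    simpa [sys, Almost, Pool.Agent.Q46.SL.Almost] using this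

/-- **Twin almost primes between `n₀` and `2 n₀` at invariant sets.**  `p` is a large prime, `n₀ < m`,
`m + p + 2 ≤ 2 n₀`, `n₀ ≤ p ^ B`.

1. Sets `Ω` of vectors modulo `p` which are mapped onto themselves by the affine maps `v ↦ M v + b`, `(M, b) ∈ Γ`.

2. Sets `Ω` of elements of a field of degree `r` over the prime field, closed under the multiplication with the
elements of a subgroup `U` of the multiplicative group; coordinates with respect to a basis.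

3. Sets `Ω` of arrays of the format `n 0 × ... × n (d - 1)`, closed under the addition of multiples of slices to other
slices in the directions of `D`. -/
theorem result (B : ℕ) :
    (∀ r : ℕ, ∀ ε : ℝ, 0 < ε → ε ≤ 1 → ∃ κ : ℝ, 0 < κ ∧ ∃ cc : ℝ, 0 < cc ∧ ∃ R p₀ : ℕ,
      ∀ p : ℕ, p₀ ≤ p → ∀ [Fact p.Prime], ∀ n₀ m : ℕ, n₀ < m → m + p + 2 ≤ 2 * n₀ → (n₀ : ℝ) ≤ (p : ℝ) ^ B →
      ∀ (Γ : Set (Matrix (Fin r) (Fin r) (ZMod p) × (Fin r → ZMod p))) (T : ℝ), LargeOrbits Γ T →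
      ∀ Ω : Finset (Fin r → ZMod p), (∀ γ ∈ Γ, Set.BijOn (fun v => γ.1 *ᵥ v + γ.2) Ω Ω) →
      ∀ A N : Fin r → ℕ, Boxes ε p A N →
        (p : ℝ) ^ (3 * (r : ℝ) + ε) ≤ (∏ j, (N j : ℝ)) ^ 2 * Ω.card * T →
        cc * ((∏ j, (N j : ℝ)) * Ω.card / (p : ℝ) ^ r) / Real.log p ^ (2 * r) ≤
          Count Ω (fun v => v) A N (Twins n₀ m ((p : ℝ) ^ κ) R)) ∧
    (∀ r : ℕ, ∀ ε : ℝ, 0 < ε → ε ≤ 1 → ∃ κ : ℝ, 0 < κ ∧ ∃ cc : ℝ, 0 < cc ∧ ∃ R p₀ : ℕ,
      ∀ p : ℕ, p₀ ≤ p → ∀ [Fact p.Prime], ∀ n₀ m : ℕ, n₀ < m → m + p + 2 ≤ 2 * n₀ → (n₀ : ℝ) ≤ (p : ℝ) ^ B →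
      ∀ (F : Type) [Field F] [Algebra (ZMod p) F] (b : Basis (Fin r) (ZMod p) F) (U : Subgroup Fˣ) (Ω : Finset F),
      (∀ u ∈ U, ∀ y ∈ Ω, (u : F) * y ∈ Ω) →
      ∀ A N : Fin r → ℕ, Boxes ε p A N →
        (p : ℝ) ^ (3 * (r : ℝ) + ε) ≤ (∏ j, (N j : ℝ)) ^ 2 * Ω.card * Nat.card U →
        cc * ((∏ j, (N j : ℝ)) * Ω.card / (p : ℝ) ^ r) / Real.log p ^ (2 * r) ≤
          Count Ω (fun y j => b.repr y j) A N (Twins n₀ m ((p : ℝ) ^ κ) R)) ∧
    (∀ (d : ℕ) (n : Fin d → ℕ), (∀ j, 1 ≤ n j) → ∀ D : Finset (Fin d), (∃ j ∈ D, 2 ≤ n j) →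
      ∀ ε : ℝ, 0 < ε → ε ≤ 1 → ∃ κ : ℝ, 0 < κ ∧ ∃ cc : ℝ, 0 < cc ∧ ∃ R p₀ : ℕ,
      ∀ p : ℕ, p₀ ≤ p → ∀ [Fact p.Prime], ∀ n₀ m : ℕ, n₀ < m → m + p + 2 ≤ 2 * n₀ → (n₀ : ℝ) ≤ (p : ℝ) ^ B →
      ∀ Ω : Finset ((∀ j, Fin (n j)) → ZMod p),
      (∀ j ∈ D, ∀ a b : Fin (n j), a ≠ b → ∀ s : ZMod p, ∀ X ∈ Ω, addSlice j a b s X ∈ Ω) →
      ∀ A N : (∀ j, Fin (n j)) → ℕ, Boxes ε p A N →
        (p : ℝ) ^ (3 * (∏ j, (n j : ℝ)) - ∑ j ∈ D, ((n j : ℝ) - 1) - 1 + ε) ≤ (∏ i, (N i : ℝ)) ^ 2 * Ω.card →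
        cc * ((∏ i, (N i : ℝ)) * Ω.card / (p : ℝ) ^ (∏ j, n j)) / Real.log p ^ (2 * ∏ j, n j) ≤
          Count Ω (fun X => X) A N (Twins n₀ m ((p : ℝ) ^ κ) R)) := by
  have hlg : ∀ (a p s : ℕ) (t : ℝ), t * lg 2 a p ≤ (s : ℝ) → t / Real.log p ^ (2 * a) ≤ s := by
    intro a p s t h
    rwa [lg, mul_one_div] at h
  refine ⟨?_, ?_, ?_⟩
  · intro r ε h0 h1
    obtain ⟨κ, hκ, cc, hcc, p₀, hf⟩ := famA (Near (B + 4) : PE 2 0 2 → ℝ → ℝ → ℤ → Prop)
      (lg (0 + 2)) (fun r => csN 2 0 2 (B + 4) r) r ε h0 h1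
    refine ⟨κ, hκ, cc, hcc, ⌊(((B + 4 : ℕ) : ℝ) + ((2 : ℕ) : ℝ) + 1) / κ⌋₊, max p₀ 8, ?_⟩
    intro p hp _ n₀ m hnm hmp hnB Γ T hT Ω hΩ A N hAN hW
    exact hlg _ _ _ _ (hf p ((le_max_left _ _).trans hp) (sys m) _
      (fun x hx hnear => twins_of B p n₀ m ((le_max_right _ _).trans hp) hnm hmp hnB κ x hx hnear) Γ T hT Ω hΩ A N hAN hW)
  · intro r ε h0 h1
    obtain ⟨κ, hκ, cc, hcc, p₀, hf⟩ := famF (Near (B + 4) : PE 2 0 2 → ℝ → ℝ → ℤ → Prop)
      (lg (0 + 2)) (fun r => csN 2 0 2 (B + 4) r) r ε h0 h1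
    refine ⟨κ, hκ, cc, hcc, ⌊(((B + 4 : ℕ) : ℝ) + ((2 : ℕ) : ℝ) + 1) / κ⌋₊, max p₀ 8, ?_⟩
    intro p hp _ n₀ m hnm hmp hnB F _ _ b U Ω hΩ A N hAN hW
    exact hlg _ _ _ _ (hf p ((le_max_left _ _).trans hp) (sys m) _
      (fun x hx hnear => twins_of B p n₀ m ((le_max_right _ _).trans hp) hnm hmp hnB κ x hx hnear) F b U Ω hΩ A N hAN hW)
  · intro d n hn D hD ε h0 h1
    obtain ⟨κ, hκ, cc, hcc, p₀, hf⟩ := famT (Near (B + 4) : PE 2 0 2 → ℝ → ℝ → ℤ → Prop)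
      (lg (0 + 2)) (fun r => csN 2 0 2 (B + 4) r) d n hn D hD ε h0 h1
    refine ⟨κ, hκ, cc, hcc, ⌊(((B + 4 : ℕ) : ℝ) + ((2 : ℕ) : ℝ) + 1) / κ⌋₊, max p₀ 8, ?_⟩
    intro p hp _ n₀ m hnm hmp hnB Ω hΩ A N hAN hW
    exact hlg _ _ _ _ (hf p ((le_max_left _ _).trans hp) (sys m) _
      (fun x hx hnear => twins_of B p n₀ m ((le_max_right _ _).trans hp) hnm hmp hnB κ x hx hnear) Ω hΩ A N hAN hW)

end Pool.Agent.Results.MP_43e117_nt.InvariantTwins
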